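import Mathlib

set_option autoImplicit false

open Cardinal Set

namespace Pool.Agent.Lib_helper71.Ent

/-! ### Cardinal arithmetic at the continuum -/

theorem aleph0_lt_cof_continuum : ℵ₀ < (𝔠 : Cardinal.{0}).ord.cof := by
  have := Cardinal.lt_cof_ord_power (a := ℵ₀) (b := (2 : Cardinal.{0})) le_rfl (by norm_num)
  simpa [Cardinal.two_power_aleph0] using this

theorem mk_iUnion_lt_continuum {α ι : Type} [Countable ι] {f : ι → Set α}
    (h : ∀ i, #(f i) < 𝔠) : #(⋃ i, f i) < 𝔠 := by
  refine (Cardinal.mk_iUnion_le f).trans_lt ?_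
  have h1 : (⨆ i, #(f i)) < 𝔠 := by
    apply Cardinal.iSup_lt_of_lt_cof_ord _ h
    exact (Cardinal.mk_le_aleph0 (α := ι)).trans_lt aleph0_lt_cof_continuum
  exact Cardinal.mul_lt_of_lt Cardinal.aleph0_le_continuum
    ((Cardinal.mk_le_aleph0 (α := ι)).trans_lt Cardinal.aleph0_lt_continuum) h1

theorem mk_union_lt_continuum {α : Type} {s t : Set α} (hs : #s < 𝔠) (ht : #t < 𝔠) :
    #(s ∪ t : Set α) < 𝔠 :=
  (Cardinal.mk_union_le s t).trans_lt (Cardinal.add_lt_of_lt Cardinal.aleph0_le_continuum hs ht)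

/-- recursion principle -/
theorem exists_rec {I X : Type} [LinearOrder I] [WellFoundedLT I]
    (P : ∀ i : I, (∀ j, j < i → X) → X → Prop) (h : ∀ i prev, ∃ x, P i prev x) :
    ∃ a : I → X, ∀ i, P i (fun j _ => a j) (a i) := by
  classical
  let a : I → X := (wellFounded_lt (α := I)).fix (fun i prev => Classical.choose (h i prev))
  refine ⟨a, fun i => ?_⟩
  have : a i = Classical.choose (h i (fun j _ => a j)) := by
    simp only [a]
    rw [WellFounded.fix_eq]
  rw [this]
  exact Classical.choose_spec (h i (fun j _ => a j))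

/-- There are at most continuum many closed sets in `Fin n → ℝ`. -/
theorem exists_enum_closed {I : Type} (hI : #I = 𝔠) (n : ℕ) :
    ∃ C : I → Set (Fin n → ℝ), (∀ i, IsClosed (C i)) ∧
      ∀ D : Set (Fin n → ℝ), IsClosed D → ∃ i, C i = D := by
  classical
  let B := TopologicalSpace.countableBasis (Fin n → ℝ)
  have hB : B.Countable := TopologicalSpace.countable_countableBasis _
  have hB' : TopologicalSpace.IsTopologicalBasis B := TopologicalSpace.isBasis_countableBasis _
  let g : {D : Set (Fin n → ℝ) // IsClosed D} → Set B := fun D => {U | (U : Set (Fin n → ℝ)) ⊆ D.1ᶜ}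
  have hg : Function.Injective g := by
    intro D D' h
    apply Subtype.ext
    rw [← compl_inj_iff]
    have key : ∀ D : {D : Set (Fin n → ℝ) // IsClosed D},
        D.1ᶜ = ⋃ U ∈ g D, (U : Set (Fin n → ℝ)) := by
      intro D
      ext x
      simp only [mem_iUnion, exists_prop]
      constructor
      · intro hx
        obtain ⟨U, hU, hxU, hUD⟩ := hB'.exists_subset_of_mem_open hx D.2.isOpen_compl
        exact ⟨⟨U, hU⟩, hUD, hxU⟩
      · rintro ⟨U, hU, hxU⟩
        exact hU hxU
    rw [key D, key D', h]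
  have hcard : #{D : Set (Fin n → ℝ) // IsClosed D} ≤ #I := by
    have h1 := Cardinal.mk_le_of_injective hg
    refine h1.trans ?_
    rw [Cardinal.mk_set, hI, ← Cardinal.two_power_aleph0]
    apply Cardinal.power_le_power_left two_ne_zero
    exact hB.le_aleph0
  have hne : Nonempty {D : Set (Fin n → ℝ) // IsClosed D} := ⟨⟨∅, isClosed_empty⟩⟩
  obtain ⟨f⟩ := (Cardinal.le_def _ _).1 hcard
  let F := Function.invFun f
  have hF : Function.Surjective F := Function.invFun_surjective f.injective
  refine ⟨fun i => (F i).1, fun i => (F i).2, fun D hD => ?_⟩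
  obtain ⟨i, hi⟩ := hF ⟨D, hD⟩
  exact ⟨i, congrArg Subtype.val hi⟩

end Pool.Agent.Lib_helper71.Ent
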