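import Mathlib
import Pool.Agent.Lib_helper71.EntA

set_option autoImplicit false

open Cardinal Set

namespace Pool.Agent.Lib_helper71.Ent

variable {m : ℕ}

/-- `Thin s A C`: no two points of `C` are strictly ordered (in the direction `s`) on all the
coordinates in `A`. -/
def Thin (s : Fin m → ℝ) (A : Finset (Fin m)) (C : Set (Fin m → ℝ)) : Prop :=
  ∀ x ∈ C, ∀ y ∈ C, ¬ ∀ i ∈ A, 0 < s i * (y i - x i)

/-- `Cyl A C`: membership in `C` depends only on the coordinates in `A`. -/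
def Cyl (A : Finset (Fin m)) (C : Set (Fin m → ℝ)) : Prop :=
  ∀ x ∈ C, ∀ y : Fin m → ℝ, (∀ i ∈ A, x i = y i) → y ∈ C

theorem thin_closure {s : Fin m → ℝ} {A : Finset (Fin m)} {C : Set (Fin m → ℝ)}
    (h : Thin s A C) : Thin s A (closure C) := by
  intro x hx y hy hxy
  have hopen : IsOpen {p : (Fin m → ℝ) × (Fin m → ℝ) | ∀ i ∈ A, 0 < s i * (p.2 i - p.1 i)} := by
    have : {p : (Fin m → ℝ) × (Fin m → ℝ) | ∀ i ∈ A, 0 < s i * (p.2 i - p.1 i)} =
        ⋂ i ∈ A, {p : (Fin m → ℝ) × (Fin m → ℝ) | 0 < s i * (p.2 i - p.1 i)} := by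
      ext p; simp
    rw [this]
    apply isOpen_biInter_finset
    intro i _
    exact isOpen_lt continuous_const (by fun_prop)
  have hmem : (x, y) ∈ closure (C ×ˢ C) := by
    rw [closure_prod_eq]; exact ⟨hx, hy⟩
  obtain ⟨p, hp1, hp2⟩ := mem_closure_iff.1 hmem _ hopen hxy
  exact h p.1 hp2.1 p.2 hp2.2 hp1

theorem cyl_closure {A : Finset (Fin m)} {C : Set (Fin m → ℝ)} (h : Cyl A C) :
    Cyl A (closure C) := by
  intro x hx y hxy
  have hc : Continuous (fun z : Fin m → ℝ => z + (y - x)) := by fun_prop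
  have hmaps : MapsTo (fun z : Fin m → ℝ => z + (y - x)) C C := by
    intro z hz
    apply h z hz
    intro i hi
    simp [hxy i hi]
  have := map_mem_closure hc hx hmaps
  simpa using this

theorem thin_empty {s : Fin m → ℝ} {C : Set (Fin m → ℝ)} (h : Thin s ∅ C) : C = ∅ := by
  rw [eq_empty_iff_forall_notMem]
  intro x hx
  exact h x hx x hx (by simp)

/-- the derived set -/
def Dv (s : Fin m → ℝ) (C : Set (Fin m → ℝ)) (A K : Finset (Fin m)) (q : Fin m → ℚ) :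
    Set (Fin m → ℝ) :=
  {z | ∃ x ∈ C, ∃ y ∈ C, (∀ i ∈ A \ K, x i = z i ∧ y i = z i) ∧
    ∀ i ∈ K, 0 < s i * (q i - x i) ∧ 0 < s i * (y i - q i)}

theorem Dv_cyl (s : Fin m → ℝ) (C : Set (Fin m → ℝ)) (A K : Finset (Fin m)) (q : Fin m → ℚ) :
    Cyl (A \ K) (Dv s C A K q) := by
  rintro z ⟨x, hx, y, hy, h1, h2⟩ z' hz'
  refine ⟨x, hx, y, hy, fun i hi => ?_, h2⟩
  rw [← hz' i hi]
  exact h1 i hi

theorem Dv_thin {s : Fin m → ℝ} {C : Set (Fin m → ℝ)} {A K : Finset (Fin m)} (q : Fin m → ℚ)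
    (h : Thin s A C) : Thin s (A \ K) (Dv s C A K q) := by
  rintro z ⟨x, hx, y, hy, h1, h2⟩ z' ⟨x', hx', y', hy', h1', h2'⟩ hzz
  apply h x hx y' hy'
  intro i hi
  by_cases hK : i ∈ K
  · have e1 := (h2 i hK).1
    have e2 := (h2' i hK).2
    have : s i * (y' i - x i) = s i * (q i - x i) + s i * (y' i - q i) := by ring
    rw [this]; exact add_pos e1 e2
  · have hi' : i ∈ A \ K := Finset.mem_sdiff.2 ⟨hi, hK⟩
    have := hzz i hi'
    rw [(h1 i hi').1, (h1' i hi').2]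
    exact this

theorem exists_rat_between {s a b : ℝ} (hs : s = 1 ∨ s = -1) (h : 0 < s * (b - a)) :
    ∃ q : ℚ, 0 < s * (q - a) ∧ 0 < s * (b - q) := by
  rcases hs with rfl | rfl
  · obtain ⟨q, h1, h2⟩ := exists_rat_btwn (show a < b by linarith)
    exact ⟨q, by linarith, by linarith⟩
  · obtain ⟨q, h1, h2⟩ := exists_rat_btwn (show b < a by linarith)
    exact ⟨q, by linarith, by linarith⟩

end Pool.Agent.Lib_helper71.Ent
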