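import Mathlib

set_option autoImplicit false

open Cardinal

namespace Pool.Agent.Lib_helper71.Ent

/-- Two `n`-tuples of reals are disjoint if they share no entry. -/
def Disj {n : ℕ} (a b : Fin n → ℝ) : Prop := ∀ i j, a i ≠ b j

/-- The type of a pair `a, b` of (disjoint) tuples: the `i`-th value is `0` (here `false`) iff
`a i < b i`. -/
noncomputable def typ {n : ℕ} (a b : Fin n → ℝ) : Fin n → Bool := fun i => decide (¬ a i < b i)

/-- `E` is `(κ,n)`-entangled: for every family `F` of `κ` many pairwise disjoint 1-1 `n`-tuples of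
elements of `E` and every type `t` there are (disjoint) `a, b ∈ F` of type `t`. -/
def Entangled (κ : Cardinal.{0}) (n : ℕ) (E : Set ℝ) : Prop :=
  ∀ F : Set (Fin n → ℝ), #F = κ → (∀ a ∈ F, Function.Injective a ∧ ∀ i, a i ∈ E) →
    F.Pairwise Disj → ∀ t : Fin n → Bool, ∃ a ∈ F, ∃ b ∈ F, Disj a b ∧ typ a b = t

/-- The statement `(∗)` for one fixed `n`. -/
def StarAt (n : ℕ) : Prop := ∃ E : Set ℝ, Entangled 𝔠 n E ∧ ¬ Entangled 𝔠 (n + 1) E

/-- The statement `(∗)`. -/
def Star : Prop := ∀ n : ℕ, 1 < n → StarAt n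

/-- `cov(N)`: the least number of Lebesgue null sets covering `ℝ`. -/
noncomputable def covNull : Cardinal.{0} :=
  sInf {κ | ∃ 𝒩 : Set (Set ℝ), #𝒩 = κ ∧ (∀ N ∈ 𝒩, MeasureTheory.volume N = 0) ∧
    ⋃₀ 𝒩 = Set.univ}

/-- `C` omits the type `t` on the set `A` of coordinates: no two points `x, y` of `C` satisfy
`x i < y i` for all `i ∈ A` with `t i = 0` (here `false`) and `y i < x i` for all `i ∈ A` with
`t i = 1` (here `true`). -/
def Omits {m : ℕ} (t : Fin m → Bool) (A : Finset (Fin m)) (C : Set (Fin m → ℝ)) : Prop :=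
  ∀ x ∈ C, ∀ y ∈ C, ¬ ∀ i ∈ A, if t i then y i < x i else x i < y i

end Pool.Agent.Lib_helper71.Ent
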