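import Mathlib
import Pool.Agent.Lib_helper71.EntB
import Pool.Agent.Lib_helper71.EntDefs

set_option autoImplicit false

open Cardinal Set

namespace Pool.Agent.Lib_helper71.Ent

/-- A set that is thin with respect to a proper set of coordinates. -/
def PThin {m : ℕ} (B : Set (Fin m → ℝ)) : Prop :=
  ∃ A : Finset (Fin m), A ≠ Finset.univ ∧ ∃ s : Fin m → ℝ, (∀ i, s i = 1 ∨ s i = -1) ∧ Thin s A B

/-- The covering property. -/
def Cov {n : ℕ} (S : Set (Fin (n + 1) → ℝ)) : Prop :=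
  ∀ 𝓑 : Set (Set (Fin (n + 1) → ℝ)), #𝓑 < 𝔠 → (∀ B ∈ 𝓑, IsClosed B ∧ PThin B) →
    ∃ x ∈ S, ∀ B ∈ 𝓑, x ∉ B

section rec

variable {I : Type} [LinearOrder I] {n : ℕ}

/-- parameters available at stage `i` -/
def Par (i : I) (prev : ∀ j, j < i → (Fin (n + 1) → ℝ)) : Set ℝ :=
  {0} ∪ {r | ∃ j, ∃ h : j < i, ∃ k, prev j h k = r}

/-- the pull back of a set `C ⊆ ℝⁿ` under a substitution -/
def Sb (C : Set (Fin n → ℝ)) (φ : Fin n → Fin (n + 1) ⊕ ℝ) : Set (Fin (n + 1) → ℝ) :=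
  {x | (fun k => Sum.elim x (fun r => r) (φ k)) ∈ C}

theorem Sb_closed {C : Set (Fin n → ℝ)} (hC : IsClosed C) (φ : Fin n → Fin (n + 1) ⊕ ℝ) :
    IsClosed (Sb C φ) := by
  apply IsClosed.preimage _ hC
  apply continuous_pi
  intro k
  rcases φ k with j | r
  · simp only [Sum.elim_inl]; fun_prop
  · simp only [Sum.elim_inr]; fun_prop

/-- The property of the `i`-th tuple. -/
def Good (S : Set (Fin (n + 1) → ℝ)) (C : I → Set (Fin n → ℝ)) (i : I) (prev : ∀ j, j < i → (Fin (n + 1) → ℝ))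
    (x : Fin (n + 1) → ℝ) : Prop :=
  x ∈ S ∧ (∀ j l, j ≠ l → x j ≠ x l) ∧ (∀ j, x j ∉ Par i prev) ∧
    ∀ γ, γ < i → ∀ φ : Fin n → Fin (n + 1) ⊕ ℝ, (∀ k r, φ k = Sum.inr r → r ∈ Par i prev) →
      PThin (Sb (C γ) φ) → x ∉ Sb (C γ) φ

theorem mk_Par_lt (hI : ∀ i : I, #(Iio i) < 𝔠) (i : I)
    (prev : ∀ j, j < i → (Fin (n + 1) → ℝ)) : #(Par i prev) < 𝔠 := by
  unfold Par
  apply mk_union_lt_continuum
  · simp only [mk_singleton]
    exact one_lt_aleph0.trans aleph0_lt_continuum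
  · have : {r | ∃ j, ∃ h : j < i, ∃ k, prev j h k = r} =
        range (fun p : (Iio i) × Fin (n + 1) => prev p.1.1 p.1.2 p.2) := by
      ext r
      simp only [mem_ofPred_eq, mem_range, Prod.exists, Subtype.exists, mem_Iio]
    rw [this]
    refine mk_range_le.trans_lt ?_
    rw [mk_prod, lift_id, lift_id]
    exact mul_lt_of_lt aleph0_le_continuum (hI i)
      ((mk_lt_aleph0 (α := Fin (n + 1))).trans aleph0_lt_continuum)

theorem exists_good {S : Set (Fin (n + 1) → ℝ)} (hn : 1 < n) (hI : ∀ i : I, #(Iio i) < 𝔠)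
    (hcov : Cov S) (C : I → Set (Fin n → ℝ)) (hC : ∀ i, IsClosed (C i)) (i : I)
    (prev : ∀ j, j < i → (Fin (n + 1) → ℝ)) : ∃ x, Good S C i prev x := by
  classical
  let 𝓑₁ : Set (Set (Fin (n + 1) → ℝ)) :=
    range (fun p : (Iio i) × (Fin n → Fin (n + 1) ⊕ Par i prev) =>
      Sb (C p.1.1) (fun k => Sum.map id Subtype.val (p.2 k)))
  let 𝓑₂ : Set (Set (Fin (n + 1) → ℝ)) :=
    range (fun p : Fin (n + 1) × Par i prev => {x : Fin (n + 1) → ℝ | x p.1 = p.2.1})
  let 𝓑₃ : Set (Set (Fin (n + 1) → ℝ)) :=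
    range (fun p : {p : Fin (n + 1) × Fin (n + 1) // p.1 ≠ p.2} =>
      {x : Fin (n + 1) → ℝ | x p.1.1 = x p.1.2})
  have hfin : ∀ k : ℕ, (#(Fin k) : Cardinal.{0}) < 𝔠 := fun k =>
    (mk_lt_aleph0 (α := Fin k)).trans aleph0_lt_continuum
  have hPar := mk_Par_lt hI i prev
  have h₁ : #𝓑₁ < 𝔠 := by
    refine mk_range_le.trans_lt ?_
    rw [mk_prod, lift_id, lift_id]
    refine mul_lt_of_lt aleph0_le_continuum (hI i) ?_
    have h1 : #(Fin (n + 1) ⊕ Par i prev) < 𝔠 := by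
      rw [mk_sum, lift_id, lift_id]
      exact add_lt_of_lt aleph0_le_continuum (hfin _) hPar
    have h2 : #(Fin n → Fin (n + 1) ⊕ Par i prev) =
        #(Fin (n + 1) ⊕ Par i prev) ^ n := by
      simp
    rw [h2]
    have h3 : #(Fin (n + 1) ⊕ Par i prev) ^ n ≤ (max ℵ₀ #(Fin (n + 1) ⊕ Par i prev)) ^ n := by
      exact pow_le_pow_left' (le_max_right _ _) n
    refine h3.trans_lt ?_
    refine lt_of_le_of_lt (power_nat_le (le_max_left _ _)) ?_
    exact max_lt aleph0_lt_continuum h1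
  have h₂ : #𝓑₂ < 𝔠 := by
    refine mk_range_le.trans_lt ?_
    rw [mk_prod, lift_id, lift_id]
    exact mul_lt_of_lt aleph0_le_continuum (hfin _) hPar
  have h₃ : #𝓑₃ < 𝔠 := by
    refine mk_range_le.trans_lt ?_
    exact (mk_lt_aleph0 (α := {p : Fin (n + 1) × Fin (n + 1) // p.1 ≠ p.2})).trans
      aleph0_lt_continuum
  let 𝓑 : Set (Set (Fin (n + 1) → ℝ)) := {B | B ∈ 𝓑₁ ∧ PThin B} ∪ (𝓑₂ ∪ 𝓑₃)
  have hcard : #𝓑 < 𝔠 := by
    apply mk_union_lt_continuum
    · exact (mk_le_mk_of_subset (fun B hB => hB.1)).trans_lt h₁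
    · exact mk_union_lt_continuum h₂ h₃
  have hthin : ∀ B ∈ 𝓑, IsClosed B ∧ PThin B := by
    intro B hB
    rcases hB with hB | hB | hB
    · obtain ⟨⟨p, rfl⟩, hp⟩ := hB
      exact ⟨Sb_closed (hC _) _, hp⟩
    · obtain ⟨⟨j, r⟩, rfl⟩ := hB
      refine ⟨isClosed_eq (by fun_prop) continuous_const, {j}, ?_, fun _ => 1, by simp, ?_⟩
      · intro h
        have := congrArg Finset.card h
        simp at this
        omega
      · intro x hx y hy h
        have := h j (by simp)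
        simp only [mem_ofPred_eq] at hx hy
        rw [hx, hy] at this
        simp at this
    · obtain ⟨⟨⟨j, l⟩, hjl⟩, rfl⟩ := hB
      simp only at hjl
      refine ⟨isClosed_eq (by fun_prop) (by fun_prop), {j, l}, ?_,
        fun k => if k = j then 1 else -1, ?_, ?_⟩
      · intro h
        have := congrArg Finset.card h
        rw [Finset.card_pair hjl] at this
        simp at this
        omega
      · intro k
        by_cases hk : k = j
        · simp [hk]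
        · simp [hk]
      · intro x hx y hy h
        have e1 := h j (by simp)
        have e2 := h l (by simp)
        simp only [mem_ofPred_eq] at hx hy
        simp only [if_true, if_neg hjl.symm] at e1 e2
        rw [hx, hy] at e1
        linarith
  obtain ⟨x, hx0, hx⟩ := hcov 𝓑 hcard hthin
  refine ⟨x, hx0, ?_, ?_, ?_⟩
  · intro j l hjl h
    exact hx _ (Or.inr (Or.inr ⟨⟨(j, l), hjl⟩, rfl⟩)) h
  · intro j hj
    exact hx _ (Or.inr (Or.inl ⟨(j, ⟨x j, hj⟩), rfl⟩)) rfl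
  · intro γ hγ φ hφ hth hmem
    -- lift `φ`
    let ψ : Fin n → Fin (n + 1) ⊕ Par i prev := fun k =>
      match h : φ k with
      | Sum.inl j => Sum.inl j
      | Sum.inr r => Sum.inr ⟨r, hφ k r h⟩
    have hψ : (fun k => Sum.map id Subtype.val (ψ k)) = φ := by
      funext k
      simp only [ψ]
      split
      · next j h => simp [h]
      · next r h => simp [h]
    refine hx (Sb (C γ) φ) (Or.inl ⟨⟨(⟨γ, hγ⟩, ψ), ?_⟩, hth⟩) hmem
    simp only [hψ]

end rec

end Pool.Agent.Lib_helper71.Ent
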