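import Mathlib
import Pool.Agent.Lib_helper71.EntC

set_option autoImplicit false

open Cardinal Set

namespace Pool.Agent.Lib_helper71.Ent

section main

variable {I : Type} [LinearOrder I] {n : ℕ}

/-- the set of all entries -/
def Entries (a : I → Fin (n + 1) → ℝ) : Set ℝ := {r | ∃ i j, a i j = r}

theorem idx_unique {S : Set (Fin (n + 1) → ℝ)} {C : I → Set (Fin n → ℝ)} {a : I → Fin (n + 1) → ℝ}
    (ha : ∀ i, Good S C i (fun j _ => a j) (a i)) {i i' : I} {j j' : Fin (n + 1)}
    (h : a i j = a i' j') : i = i' ∧ j = j' := by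
  have key : ∀ i i' : I, ∀ j j' : Fin (n + 1), i' < i → a i j ≠ a i' j' := by
    intro i i' j j' hlt he
    exact (ha i).2.2.1 j (Or.inr ⟨i', hlt, j', he.symm⟩)
  rcases lt_trichotomy i i' with hlt | heq | hlt
  · exact absurd h.symm (key i' i j' j hlt)
  · subst heq
    refine ⟨rfl, ?_⟩
    by_contra hne
    exact (ha i).2.1 j j' hne h
  · exact absurd h (key i i' j j' hlt)

theorem small_of_thin {S : Set (Fin (n + 1) → ℝ)} (hI : ∀ i : I, #(Iio i) < 𝔠)
    {C : I → Set (Fin n → ℝ)} (hC' : ∀ D : Set (Fin n → ℝ), IsClosed D → ∃ i, C i = D)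
    {a : I → Fin (n + 1) → ℝ} (ha : ∀ i, Good S C i (fun j _ => a j) (a i))
    {F : Set (Fin n → ℝ)} (hF : ∀ b ∈ F, Function.Injective b ∧ ∀ i, b i ∈ Entries a)
    (hdisj : F.Pairwise Disj) (s : Fin n → ℝ) (hs : ∀ i, s i = 1 ∨ s i = -1) :
    ∀ A : Finset (Fin n), ∀ D : Set (Fin n → ℝ), IsClosed D → Cyl A D → Thin s A D →
      #(F ∩ D : Set (Fin n → ℝ)) < 𝔠 := by
  classical
  intro A
  induction A using Finset.strongInduction with
  | H A ih =>
  intro D hD hcyl hthin
  by_cases hA : A = ∅
  · subst hA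
    rw [thin_empty hthin]
    simp only [inter_empty, mk_eq_zero]
    exact aleph0_pos.trans aleph0_lt_continuum
  obtain ⟨k₀, hk₀⟩ := Finset.nonempty_iff_ne_empty.2 hA
  obtain ⟨γ, hγ⟩ := hC' D hD
  -- index and position functions
  have hex : ∀ r : ℝ, ∃ p : I × Fin (n + 1), r ∈ Entries a → a p.1 p.2 = r := by
    intro r
    by_cases hr : r ∈ Entries a
    · obtain ⟨i, j, hij⟩ := hr
      exact ⟨(i, j), fun _ => hij⟩
    · exact ⟨(γ, 0), fun h => absurd h hr⟩
  choose ix hix using hex
  -- the three kinds of sets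
  have hsub : F ∩ D ⊆ {b | b ∈ F ∧ (ix (b k₀)).1 ≤ γ} ∪
      ⋃ p : {K : Finset (Fin n) // K ⊆ A ∧ K.Nonempty} × (Fin n → ℚ),
        F ∩ closure (Dv s D A p.1.1 p.2) := by
    rintro b ⟨hbF, hbD⟩
    by_cases hle : (ix (b k₀)).1 ≤ γ
    · exact Or.inl ⟨hbF, hle⟩
    right
    obtain ⟨k₁, hk₁, hmax⟩ := Finset.exists_max_image A (fun k => (ix (b k)).1) ⟨k₀, hk₀⟩
    have hγlt : γ < (ix (b k₁)).1 := (not_le.1 hle).trans_le (hmax k₀ hk₀)
    set ξ := (ix (b k₁)).1 with hξ
    have hbE : ∀ k, a (ix (b k)).1 (ix (b k)).2 = b k := fun k => hix (b k) ((hF b hbF).2 k)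
    let K := A.filter (fun k => (ix (b k)).1 = ξ)
    have hKA : K ⊆ A := Finset.filter_subset _ _
    have hKne : K.Nonempty := ⟨k₁, Finset.mem_filter.2 ⟨hk₁, rfl⟩⟩
    let pos : Fin n → Fin (n + 1) := fun k => (ix (b k)).2
    have hpos : ∀ k ∈ K, a ξ (pos k) = b k := by
      intro k hk
      have := (Finset.mem_filter.1 hk).2
      simp only [pos]
      rw [← this]
      exact hbE k
    have hposinj : ∀ k ∈ K, ∀ k' ∈ K, pos k = pos k' → k = k' := by
      intro k hk k' hk' h
      apply (hF b hbF).1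
      rw [← hpos k hk, ← hpos k' hk', h]
    let φ : Fin n → Fin (n + 1) ⊕ ℝ := fun k =>
      if k ∈ K then Sum.inl (pos k) else if k ∈ A then Sum.inr (b k) else Sum.inr 0
    have hφK : ∀ k ∈ K, φ k = Sum.inl (pos k) := fun k hk => if_pos hk
    have hφA : ∀ k ∈ A \ K, φ k = Sum.inr (b k) := by
      intro k hk
      rw [Finset.mem_sdiff] at hk
      simp only [φ]
      rw [if_neg hk.2, if_pos hk.1]
    have hφpar : ∀ k r, φ k = Sum.inr r → r ∈ Par ξ (fun j (_ : j < ξ) => a j) := by
      intro k r hkr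
      by_cases h1 : k ∈ K
      · rw [hφK k h1] at hkr; cases hkr
      by_cases h2 : k ∈ A
      · rw [hφA k (Finset.mem_sdiff.2 ⟨h2, h1⟩)] at hkr
        have hr : b k = r := Sum.inr.inj hkr
        right
        have hlt : (ix (b k)).1 < ξ := by
          refine lt_of_le_of_ne (hmax k h2) ?_
          intro h
          exact h1 (Finset.mem_filter.2 ⟨h2, h⟩)
        exact ⟨_, hlt, (ix (b k)).2, by rw [← hr]; exact hbE k⟩
      · simp only [φ] at hkr
        rw [if_neg h1, if_neg h2] at hkr
        have hr : (0 : ℝ) = r := Sum.inr.inj hkr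
        left
        rw [← hr]; rfl
    have hmem : a ξ ∈ Sb (C γ) φ := by
      rw [hγ]
      apply hcyl b hbD
      intro k hk
      by_cases h1 : k ∈ K
      · simp only [hφK k h1, Sum.elim_inl]; exact (hpos k h1).symm
      · simp only [hφA k (Finset.mem_sdiff.2 ⟨hk, h1⟩), Sum.elim_inr]
    have hnot : ¬ PThin (Sb (C γ) φ) := fun hp => (ha ξ).2.2.2 γ hγlt φ hφpar hp hmem
    -- the transported signs
    let A' : Finset (Fin (n + 1)) := K.image pos
    have hA' : A' ≠ Finset.univ := by
      intro h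
      have h1 : A'.card ≤ K.card := Finset.card_image_le
      have h2 : K.card ≤ n := by
        have := Finset.card_le_univ K
        simpa using this
      rw [h] at h1
      simp at h1
      omega
    let s' : Fin (n + 1) → ℝ := fun j => if h : ∃ k ∈ K, pos k = j then s h.choose else 1
    have hs' : ∀ k ∈ K, s' (pos k) = s k := by
      intro k hk
      have h : ∃ k' ∈ K, pos k' = pos k := ⟨k, hk, rfl⟩
      simp only [s']
      rw [dif_pos h]
      have := h.choose_spec
      rw [hposinj _ this.1 k hk this.2]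
    have hs'' : ∀ j, s' j = 1 ∨ s' j = -1 := by
      intro j
      simp only [s']
      split
      · exact hs _
      · exact Or.inl rfl
    have hnt : ¬ Thin s' A' (Sb (C γ) φ) := fun h => hnot ⟨A', hA', s', hs'', h⟩
    unfold Thin at hnt
    push Not at hnt
    obtain ⟨x, hx, y, hy, hxy⟩ := hnt
    have hq : ∀ k : Fin n, ∃ q : ℚ, k ∈ K → 0 < s k * (q - x (pos k)) ∧
        0 < s k * (y (pos k) - q) := by
      intro k
      by_cases hk : k ∈ K
      · have h1 := hxy (pos k) (Finset.mem_image_of_mem _ hk)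
        rw [hs' k hk] at h1
        obtain ⟨q, hq⟩ := exists_rat_between (hs k) h1
        exact ⟨q, fun _ => hq⟩
      · exact ⟨0, fun h => absurd h hk⟩
    choose q hq using hq
    rw [hγ] at hx hy
    refine mem_iUnion.2 ⟨(⟨K, hKA, hKne⟩, q), hbF, subset_closure ?_⟩
    refine ⟨_, hx, _, hy, ?_, ?_⟩
    · intro k hk
      simp only [hφA k hk, Sum.elim_inr, and_self]
    · intro k hk
      simp only [hφK k hk, Sum.elim_inl]
      exact hq k hk
  refine (mk_le_mk_of_subset hsub).trans_lt (mk_union_lt_continuum ?_ ?_)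
  · -- few tuples with small index
    have hinj : Function.Injective
        (fun b : {b : Fin n → ℝ | b ∈ F ∧ (ix (b k₀)).1 ≤ γ} =>
          (⟨ix (b.1 k₀), b.2.2⟩ : {p : I × Fin (n + 1) // p.1 ≤ γ})) := by
      intro b b' h
      have h1 : ix (b.1 k₀) = ix (b'.1 k₀) := congrArg Subtype.val h
      have h2 : b.1 k₀ = b'.1 k₀ := by
        rw [← hix (b.1 k₀) ((hF _ b.2.1).2 k₀), ← hix (b'.1 k₀) ((hF _ b'.2.1).2 k₀), h1]
      apply Subtype.ext
      by_contra hne
      exact hdisj b.2.1 b'.2.1 hne k₀ k₀ h2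
    refine (mk_le_of_injective hinj).trans_lt ?_
    have hinj2 : Function.Injective (fun p : {p : I × Fin (n + 1) // p.1 ≤ γ} =>
        ((⟨p.1.1, p.2⟩, p.1.2) : (Iic γ) × Fin (n + 1))) := by
      intro p p' h
      simp only [Prod.mk.injEq, Subtype.mk.injEq] at h
      exact Subtype.ext (Prod.ext h.1 h.2)
    refine (mk_le_of_injective hinj2).trans_lt ?_
    rw [mk_prod, lift_id, lift_id]
    refine mul_lt_of_lt aleph0_le_continuum ?_
      ((mk_lt_aleph0 (α := Fin (n + 1))).trans aleph0_lt_continuum)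
    have : (Iic γ : Set I) = insert γ (Iio γ) := by
      ext x; simp [le_iff_eq_or_lt]
    rw [this]
    refine (mk_insert_le).trans_lt ?_
    exact add_lt_of_lt aleph0_le_continuum (hI γ) (one_lt_aleph0.trans aleph0_lt_continuum)
  · apply mk_iUnion_lt_continuum
    rintro ⟨⟨K, hKA, hKne⟩, q⟩
    have hss : A \ K ⊂ A := by
      refine Finset.ssubset_iff_subset_ne.2 ⟨Finset.sdiff_subset, ?_⟩
      intro h
      obtain ⟨k, hk⟩ := hKne
      have := hKA hk
      rw [← h] at this
      exact (Finset.mem_sdiff.1 this).2 hk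
    exact ih (A \ K) hss _ isClosed_closure (cyl_closure (Dv_cyl s D A K q))
      (thin_closure (Dv_thin q hthin))

end main

/-- **Main construction.** -/
theorem exists_of_cov {n : ℕ} (hn : 1 < n) {S : Set (Fin (n + 1) → ℝ)} {s₀ : Fin (n + 1) → ℝ}
    (hs₀ : ∀ i, s₀ i = 1 ∨ s₀ i = -1) (hS : Thin s₀ Finset.univ S) (hcov : Cov S) :
    StarAt n := by
  classical
  let I : Type := (𝔠 : Cardinal.{0}).ord.ToType
  have hIcard : #I = 𝔠 := Cardinal.mk_ord_toType 𝔠
  have hI : ∀ i : I, #(Iio i) < 𝔠 := by
    intro i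
    have := Cardinal.mk_Iio_lt i (by simp [I])
    rwa [hIcard] at this
  obtain ⟨C, hC, hC'⟩ := exists_enum_closed hIcard n
  obtain ⟨a, ha⟩ := exists_rec (I := I) (X := Fin (n + 1) → ℝ) (Good S C)
    (fun i prev => exists_good hn hI hcov C hC i prev)
  refine ⟨Entries a, ?_, ?_⟩
  · intro F hFcard hF hdisj t
    by_contra hcon
    push Not at hcon
    let s : Fin n → ℝ := fun i => if t i = true then -1 else 1
    have hs : ∀ i, s i = 1 ∨ s i = -1 := by
      intro i
      simp only [s]
      split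
      · exact Or.inr rfl
      · exact Or.inl rfl
    have hthin : Thin s Finset.univ F := by
      intro x hx y hy hxy
      have hne : x ≠ y := by
        rintro rfl
        have := hxy ⟨0, by omega⟩ (Finset.mem_univ _)
        simp at this
      have hd : Disj x y := hdisj hx hy hne
      apply hcon x hx y hy hd
      funext i
      have h1 := hxy i (Finset.mem_univ _)
      simp only [s] at h1
      by_cases hti : t i = true
      · rw [if_pos hti] at h1
        rw [hti]
        simp only [typ, decide_eq_true_eq]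
        linarith
      · rw [if_neg hti] at h1
        have : t i = false := by simpa using hti
        rw [this]
        simp only [typ, decide_eq_false_iff_not, not_not]
        linarith
    have hlt := small_of_thin hI hC' ha hF hdisj s hs Finset.univ (closure F) isClosed_closure
      (fun x hx y hxy => by
        have : x = y := funext fun i => hxy i (Finset.mem_univ _)
        rwa [← this]) (thin_closure hthin)
    rw [inter_eq_left.2 subset_closure, hFcard] at hlt
    exact lt_irrefl _ hlt
  · intro h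
    have hinj : Function.Injective a := by
      intro i i' hii
      exact (idx_unique ha (j := 0) (j' := 0) (by rw [hii])).1
    obtain ⟨x, hx, y, hy, hd, hxy⟩ := h (range a) (by rw [mk_range_eq a hinj, hIcard])
      (by
        rintro _ ⟨i, rfl⟩
        refine ⟨?_, fun j => ⟨i, j, rfl⟩⟩
        intro j j' hjj
        exact (idx_unique ha hjj).2)
      (by
        rintro _ ⟨i, rfl⟩ _ ⟨i', rfl⟩ hne j j' hjj
        apply hne
        rw [(idx_unique ha hjj).1])
      (fun i => decide (s₀ i = -1))
    obtain ⟨i, rfl⟩ := hx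
    obtain ⟨i', rfl⟩ := hy
    apply hS _ (ha i).1 _ (ha i').1
    intro j _
    have h1 := congrFun hxy j
    simp only [typ] at h1
    have hne : a i j ≠ a i' j := hd j j
    rcases hs₀ j with hj | hj
    · have : ¬ (s₀ j = -1) := by rw [hj]; norm_num
      rw [decide_eq_false this] at h1
      simp only [decide_eq_false_iff_not, not_not] at h1
      rw [hj]; linarith
    · rw [decide_eq_true hj] at h1
      simp only [decide_eq_true_eq, not_lt] at h1
      rw [hj]
      have := lt_of_le_of_ne h1 hne.symm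
      linarith

end Pool.Agent.Lib_helper71.Ent
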