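import Mathlib
import Pool.Agent.Lib_helper71.EntD

set_option autoImplicit false

open Cardinal Set

namespace Pool.Agent.Lib_helper71.Ent

variable {m : ℕ}

/-- every line in direction `v` meets `G` in at most one point -/
def LineSmall (v : Fin m → ℝ) (G : Set (Fin m → ℝ)) : Prop :=
  ∀ x ∈ G, ∀ r : ℝ, x + r • v ∈ G → r = 0

/-- the direction `e_j - e_l` -/
def dir (j l : Fin m) : Fin m → ℝ := Pi.single j 1 - Pi.single l 1

theorem dir_self {j l : Fin m} (h : j ≠ l) : dir j l j = 1 := by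
  simp [dir, h]

theorem dir_other {j l k : Fin m} (hj : k ≠ j) (hl : k ≠ l) : dir j l k = 0 := by
  simp [dir, hj, hl]

theorem dir_sum (j l : Fin m) : ∑ k, dir j l k = 0 := by
  simp [dir, Finset.sum_sub_distrib]

theorem thin_cover (l : Fin m) (s : Fin m → ℝ) (hs : ∀ i, s i = 1 ∨ s i = -1) :
    ∀ A : Finset (Fin m), l ∉ A → ∀ B : Set (Fin m → ℝ), Thin s A B →
      ∃ 𝒢 : Set (Set (Fin m → ℝ)), 𝒢.Countable ∧
        (∀ G ∈ 𝒢, ∃ j, j ≠ l ∧ LineSmall (dir j l) G) ∧ B ⊆ ⋃₀ 𝒢 := by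
  classical
  intro A
  induction A using Finset.strongInduction with
  | H A ih =>
  intro hl B hB
  by_cases hA : A = ∅
  · subst hA
    refine ⟨∅, countable_empty, by simp, ?_⟩
    rw [thin_empty hB]; simp
  obtain ⟨j, hj⟩ := Finset.nonempty_iff_ne_empty.2 hA
  have hjl : j ≠ l := fun h => hl (h ▸ hj)
  have hss : A \ {j} ⊂ A := by
    refine Finset.ssubset_iff_subset_ne.2 ⟨Finset.sdiff_subset, fun h => ?_⟩
    rw [← h] at hj
    simp at hj
  have hlA : l ∉ A \ {j} := fun h => hl (Finset.mem_sdiff.1 h).1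
  have hih : ∀ q : ℚ, ∃ 𝒢 : Set (Set (Fin m → ℝ)), 𝒢.Countable ∧
        (∀ G ∈ 𝒢, ∃ j, j ≠ l ∧ LineSmall (dir j l) G) ∧
        Dv s B A {j} (fun _ => q) ⊆ ⋃₀ 𝒢 := fun q =>
    ih (A \ {j}) hss hlA _ (Dv_thin _ hB)
  choose 𝒢 h1 h2 h3 using hih
  let G₀ : Set (Fin m → ℝ) := {x | x ∈ B ∧ ∀ r : ℝ, x + r • dir j l ∈ B → r = 0}
  refine ⟨{G₀} ∪ ⋃ q, 𝒢 q, (countable_singleton _).union (countable_iUnion h1), ?_, ?_⟩
  · rintro G (hG | hG)
    · rw [mem_singleton_iff] at hG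
      subst hG
      exact ⟨j, hjl, fun x hx r hr => hx.2 r hr.1⟩
    · obtain ⟨q, hq⟩ := mem_iUnion.1 hG
      exact h2 q G hq
  · intro x hx
    by_cases hx0 : ∀ r : ℝ, x + r • dir j l ∈ B → r = 0
    · exact ⟨G₀, Or.inl rfl, hx, hx0⟩
    · push Not at hx0
      obtain ⟨r, hr, hr0⟩ := hx0
      have hyj : (x + r • dir j l) j = x j + r := by
        simp [dir_self hjl]
      have hyk : ∀ k ∈ A \ {j}, (x + r • dir j l) k = x k := by
        intro k hk
        rw [Finset.mem_sdiff, Finset.mem_singleton] at hk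
        have hkl : k ≠ l := fun h => hl (h ▸ hk.1)
        simp [dir_other hk.2 hkl]
      have hsj : s j * r ≠ 0 := by
        rcases hs j with h | h <;> rw [h] <;> simpa using hr0
      have : ∃ q : ℚ, x ∈ Dv s B A {j} (fun _ => q) := by
        rcases lt_or_gt_of_ne hsj with hlt | hgt
        · have : 0 < s j * (x j - (x + r • dir j l) j) := by rw [hyj]; nlinarith
          obtain ⟨q, hq1, hq2⟩ := exists_rat_between (hs j) this
          refine ⟨q, _, hr, _, hx, ?_, ?_⟩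
          · intro k hk; exact ⟨hyk k hk, rfl⟩
          · intro k hk
            rw [Finset.mem_singleton] at hk
            subst hk
            exact ⟨hq1, hq2⟩
        · have : 0 < s j * ((x + r • dir j l) j - x j) := by rw [hyj]; nlinarith
          obtain ⟨q, hq1, hq2⟩ := exists_rat_between (hs j) this
          refine ⟨q, _, hx, _, hr, ?_, ?_⟩
          · intro k hk; exact ⟨rfl, hyk k hk⟩
          · intro k hk
            rw [Finset.mem_singleton] at hk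
            subst hk
            exact ⟨hq1, hq2⟩
      obtain ⟨q, hq⟩ := this
      obtain ⟨G, hG, hxG⟩ := h3 q hq
      exact ⟨G, Or.inr (mem_iUnion.2 ⟨q, hG⟩), hxG⟩

theorem avoid (hlim : ∀ κ : Cardinal.{0}, κ < 𝔠 → Order.succ κ < 𝔠) {κ : Cardinal.{0}} (hκ : κ < 𝔠)
    (L : List ((Fin m → ℝ) × Set (Fin m → ℝ)))
    (hL : ∀ p ∈ L, ∑ i, p.1 i = 0 ∧ ∀ x : Fin m → ℝ, #{r : ℝ | x + r • p.1 ∈ p.2} ≤ κ) :
    ∃ Y : Set (Fin m → ℝ), #Y < 𝔠 ∧ (∀ y ∈ Y, ∑ i, y i = 0) ∧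
      ∀ x : Fin m → ℝ, ∃ y ∈ Y, ∀ p ∈ L, x + y ∉ p.2 := by
  induction L with
  | nil =>
    refine ⟨{0}, ?_, by simp, fun x => ⟨0, rfl, by simp⟩⟩
    simp only [mk_singleton]
    exact one_lt_aleph0.trans aleph0_lt_continuum
  | cons p L ih =>
    obtain ⟨Y, hY, hY0, hYav⟩ := ih (fun q hq => hL q (List.mem_cons_of_mem _ hq))
    obtain ⟨hp0, hp⟩ := hL p List.mem_cons_self
    have hμ : #Y * κ < 𝔠 := mul_lt_of_lt aleph0_le_continuum hY hκ
    have hμ' := hlim _ hμ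
    have hle : Order.succ (#Y * κ) ≤ #ℝ := by
      rw [mk_real]; exact hμ'.le
    obtain ⟨X, hX⟩ := le_mk_iff_exists_set.1 hle
    refine ⟨image2 (fun y r => y + r • p.1) Y X, ?_, ?_, ?_⟩
    · have h1 : #(image2 (fun y (r : ℝ) => y + r • p.1) Y X) ≤ #(Y ×ˢ X : Set _) := by
        rw [← image_uncurry_prod]
        exact mk_image_le
      refine h1.trans_lt ?_
      rw [mk_setProd, hX]
      exact mul_lt_of_lt aleph0_le_continuum hY hμ'
    · rintro _ ⟨y, hy, r, hr, rfl⟩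
      simp only [Pi.add_apply, Pi.smul_apply, smul_eq_mul, Finset.sum_add_distrib,
        ← Finset.mul_sum, hY0 y hy, hp0, mul_zero, add_zero]
    · intro x
      have hbad : #(⋃ y : Y, {r : ℝ | (x + y.1) + r • p.1 ∈ p.2}) ≤ #Y * κ := by
        refine (mk_iUnion_le _).trans ?_
        gcongr
        exact ciSup_le' fun y => hp _
      have hex : ∃ r ∈ X, r ∉ ⋃ y : Y, {r : ℝ | (x + y.1) + r • p.1 ∈ p.2} := by
        by_contra hcon
        push Not at hcon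
        have h1 := mk_le_mk_of_subset (show X ⊆ _ from hcon)
        rw [hX] at h1
        exact absurd (h1.trans hbad) (not_le.2 (Order.lt_succ _))
      obtain ⟨r, hrX, hr⟩ := hex
      obtain ⟨y, hyY, hy⟩ := hYav (x + r • p.1)
      refine ⟨y + r • p.1, ⟨y, hyY, r, hrX, rfl⟩, ?_⟩
      intro q hq
      rw [List.mem_cons] at hq
      rcases hq with rfl | hq
      · intro hmem
        apply hr
        refine mem_iUnion.2 ⟨⟨y, hyY⟩, ?_⟩
        have : x + (y + r • q.1) = (x + y) + r • q.1 := by abel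
        rw [this] at hmem
        exact hmem
      · have := hy q hq
        have e : x + (y + r • p.1) = x + r • p.1 + y := by abel
        rwa [e]

/-- The covering property holds if the continuum is a limit cardinal. -/
theorem cov_of_limit (hlim : ∀ κ : Cardinal.{0}, κ < 𝔠 → Order.succ κ < 𝔠) (n : ℕ) :
    Cov {x : Fin (n + 1) → ℝ | ∑ i, x i = 0} := by
  classical
  intro 𝓑 h𝓑 hthin
  have hex : ∀ B : Set (Fin (n + 1) → ℝ), ∃ 𝒢 : Set (Set (Fin (n + 1) → ℝ)), 𝒢.Countable ∧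
      (∀ G ∈ 𝒢, ∃ j l, j ≠ l ∧ LineSmall (dir j l) G) ∧ (B ∈ 𝓑 → B ⊆ ⋃₀ 𝒢) := by
    intro B
    by_cases hB : B ∈ 𝓑
    · obtain ⟨-, A, hA, s, hs, hT⟩ := hthin B hB
      obtain ⟨l, hl⟩ : ∃ l, l ∉ A := by
        by_contra h
        push Not at h
        exact hA (Finset.eq_univ_iff_forall.2 h)
      obtain ⟨𝒢, h1, h2, h3⟩ := thin_cover l s hs A hl B hT
      exact ⟨𝒢, h1, fun G hG => by obtain ⟨j, hj⟩ := h2 G hG; exact ⟨j, l, hj⟩, fun _ => h3⟩
    · exact ⟨∅, countable_empty, by simp, fun h => absurd h hB⟩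
  choose 𝒢 hc hsm hcov using hex
  let 𝒜 : Set (Set (Fin (n + 1) → ℝ)) := ⋃ B : 𝓑, 𝒢 B.1
  let κ : Cardinal.{0} := #𝒜
  have hκ : κ < 𝔠 := by
    refine (mk_iUnion_le _).trans_lt ?_
    refine mul_lt_of_lt aleph0_le_continuum h𝓑 ?_
    refine lt_of_le_of_lt (b := ℵ₀) ?_ aleph0_lt_continuum
    exact ciSup_le' fun B => (hc B.1).le_aleph0
  let U : Fin (n + 1) → Fin (n + 1) → Set (Fin (n + 1) → ℝ) := fun j l =>
    {x | ∃ G ∈ 𝒜, LineSmall (dir j l) G ∧ x ∈ G}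
  let L : List ((Fin (n + 1) → ℝ) × Set (Fin (n + 1) → ℝ)) :=
    (Finset.univ : Finset (Fin (n + 1) × Fin (n + 1))).toList.map
      (fun p => (dir p.1 p.2, U p.1 p.2))
  obtain ⟨Y, -, hY0, hY⟩ := avoid hlim hκ L (by
    intro p hp
    obtain ⟨q, -, rfl⟩ := List.mem_map.1 hp
    refine ⟨dir_sum _ _, fun x => ?_⟩
    have hch : ∀ r : {r : ℝ | x + r • dir q.1 q.2 ∈ U q.1 q.2},
        ∃ G : 𝒜, LineSmall (dir q.1 q.2) G.1 ∧ x + r.1 • dir q.1 q.2 ∈ G.1 := by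
      rintro ⟨r, G, hG, h1, h2⟩
      exact ⟨⟨G, hG⟩, h1, h2⟩
    choose g hg1 hg2 using hch
    apply mk_le_of_injective (f := g)
    intro r r' hrr
    have h1 := hg2 r
    have h2 := hg2 r'
    rw [← hrr] at h2
    have h3 := hg1 r _ h1 (r'.1 - r.1) (by
      have : x + r.1 • dir q.1 q.2 + (r'.1 - r.1) • dir q.1 q.2 = x + r'.1 • dir q.1 q.2 := by
        rw [sub_smul]; abel
      rw [this]; exact h2)
    apply Subtype.ext
    linarith)
  obtain ⟨y, hyY, hy⟩ := hY 0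
  refine ⟨y, hY0 y hyY, fun B hB hyB => ?_⟩
  obtain ⟨G, hG, hyG⟩ := hcov B hB hyB
  obtain ⟨j, l, -, hjl⟩ := hsm B G hG
  have := hy (dir j l, U j l) (List.mem_map.2 ⟨(j, l), by simp, rfl⟩)
  apply this
  rw [zero_add]
  exact ⟨G, mem_iUnion.2 ⟨⟨B, hB⟩, hG⟩, hjl, hyG⟩

end Pool.Agent.Lib_helper71.Ent
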