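import Mathlib
import Pool.Agent.Lib_helper71.EntD

set_option autoImplicit false

open Cardinal Set MeasureTheory

namespace Pool.Agent.Lib_helper71.Ent

/-- fewer than continuum many null sets do not cover `ℝ` -/
def NullSmall : Prop :=
  ∀ 𝒩 : Set (Set ℝ), #𝒩 < 𝔠 → (∀ N ∈ 𝒩, volume N = 0) → ⋃₀ 𝒩 ≠ Set.univ

theorem NullSmall.pi (h : NullSmall) : ∀ (n : ℕ) (J : Type) (N : J → Set (Fin n → ℝ)),
    #J < 𝔠 → (∀ j, volume (N j) = 0) → ∃ x, ∀ j, x ∉ N j := by
  intro n
  induction n with
  | zero =>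
    intro J N _ hN
    refine ⟨0, fun j hj => ?_⟩
    have h1 : N j = Set.univ := by
      ext y; simp only [mem_univ, iff_true]
      rw [Subsingleton.elim y 0]; exact hj
    have h2 := hN j
    rw [h1, volume_pi, Measure.pi_of_empty] at h2
    simp at h2
  | succ n ih =>
    intro J N hJ hN
    let e := MeasurableEquiv.piFinSuccAbove (fun _ : Fin (n + 1) => ℝ) 0
    have he : MeasurePreserving e := volume_preserving_piFinSuccAbove (fun _ => ℝ) 0
    let N' : J → Set (ℝ × (Fin n → ℝ)) := fun j => e.symm ⁻¹' (N j)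
    have hN' : ∀ j, volume (N' j) = 0 := by
      intro j
      have := he.symm.measure_preimage_equiv (N j)
      rw [hN j] at this
      exact this
    let M : J → Set ℝ := fun j => {x | volume (Prod.mk x ⁻¹' (N' j)) ≠ 0}
    have hM : ∀ j, volume (M j) = 0 := by
      intro j
      have h1 : (volume : Measure ℝ).prod (volume : Measure (Fin n → ℝ)) (N' j) = 0 := hN' j
      have h2 := Measure.measure_ae_null_of_prod_null h1
      exact h2
    have h3 : ⋃₀ (range M) ≠ Set.univ := by
      apply h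
      · exact mk_range_le.trans_lt hJ
      · rintro _ ⟨j, rfl⟩; exact hM j
    obtain ⟨x, hx⟩ := (ne_univ_iff_exists_notMem _).1 h3
    have hx' : ∀ j, volume (Prod.mk x ⁻¹' (N' j)) = 0 := by
      intro j
      by_contra hne
      exact hx ⟨M j, ⟨j, rfl⟩, hne⟩
    obtain ⟨y, hy⟩ := ih J (fun j => Prod.mk x ⁻¹' (N' j)) hJ hx'
    exact ⟨e.symm (x, y), fun j => hy j⟩

theorem null_of_line {n : ℕ} {N : Set (Fin n → ℝ)} (hN : MeasurableSet N) (w : Fin n → ℝ)
    (h : ∀ y ∈ N, ∀ r : ℝ, y + r • w ∈ N → r = 0) : volume N = 0 := by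
  apply Measure.addHaar_eq_zero_of_disjoint_translates volume
    (fun k : ℕ => (1 / ((k : ℝ) + 1)) • w) ?_ ?_ hN
  · refine (Metric.isBounded_closedBall (x := (0 : Fin n → ℝ)) (r := ‖w‖)).subset ?_
    rintro _ ⟨k, rfl⟩
    rw [mem_closedBall_zero_iff, norm_smul]
    have h1 : ‖(1 / ((k : ℝ) + 1))‖ ≤ 1 := by
      rw [Real.norm_eq_abs, abs_of_nonneg (by positivity)]
      rw [div_le_one (by positivity)]
      have : (0 : ℝ) ≤ k := by positivity
      linarith
    calc _ ≤ 1 * ‖w‖ := by gcongr
      _ = ‖w‖ := one_mul _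
  · intro k k' hkk
    simp only [Function.onFun]
    rw [disjoint_left]
    rintro z hz hz'
    rw [singleton_add, mem_image] at hz hz'
    obtain ⟨y, hy, rfl⟩ := hz
    obtain ⟨y', hy', he⟩ := hz'
    have h1 : y + (1 / ((k : ℝ) + 1) - 1 / ((k' : ℝ) + 1)) • w = y' := by
      rw [sub_smul]
      have : y' = (1 / ((k : ℝ) + 1)) • w + y - (1 / ((k' : ℝ) + 1)) • w := by
        rw [← he]; abel
      rw [this]; abel
    have h2 := h y hy _ (by rw [h1]; exact hy')
    have h3 : (1 : ℝ) / ((k : ℝ) + 1) = 1 / ((k' : ℝ) + 1) := by linarith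
    rw [div_eq_div_iff (by positivity) (by positivity)] at h3
    apply hkk
    have : (k : ℝ) = k' := by linarith
    exact_mod_cast this

/-- The covering property holds if fewer than continuum many null sets do not cover `ℝ`. -/
theorem cov_of_null (h : NullSmall) (n : ℕ) :
    Cov {x : Fin (n + 1) → ℝ | ∑ i, x i = 0} := by
  classical
  intro 𝓑 h𝓑 hthin
  let ψ : (Fin n → ℝ) → (Fin (n + 1) → ℝ) := fun y => Fin.cons (-∑ i, y i) y
  have hψ0 : ∀ y, ∑ i, ψ y i = 0 := by
    intro y
    simp [ψ, Fin.sum_univ_succ]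
  have hψadd : ∀ y w : Fin n → ℝ, ∀ r : ℝ, ψ (y + r • w) = ψ y + r • ψ w := by
    intro y w r
    funext i
    refine Fin.cases ?_ (fun i => ?_) i
    · simp only [ψ, Fin.cons_zero, Pi.add_apply, Pi.smul_apply, smul_eq_mul,
        Finset.sum_add_distrib, ← Finset.mul_sum]
      ring
    · simp [ψ]
  have hψc : Continuous ψ := by
    apply continuous_pi
    intro i
    refine Fin.cases ?_ (fun i => ?_) i
    · simp only [ψ, Fin.cons_zero]; fun_prop
    · simp only [ψ, Fin.cons_succ]; fun_prop
  obtain ⟨y, hy⟩ := h.pi n 𝓑 (fun B => ψ ⁻¹' B.1) h𝓑 (by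
    rintro ⟨B, hB⟩
    obtain ⟨hcl, A, hA, s, hs, hT⟩ := hthin B hB
    obtain ⟨l, hl⟩ : ∃ l, l ∉ A := by
      by_contra h
      push Not at h
      exact hA (Finset.eq_univ_iff_forall.2 h)
    -- the direction in the hyperplane
    let v : Fin (n + 1) → ℝ := fun i => if i = l then -∑ k ∈ Finset.univ.erase l, s k else s i
    have hv0 : ∑ i, v i = 0 := by
      rw [← Finset.add_sum_erase _ _ (Finset.mem_univ l)]
      have : ∑ i ∈ Finset.univ.erase l, v i = ∑ i ∈ Finset.univ.erase l, s i := by
        apply Finset.sum_congr rfl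
        intro i hi
        simp only [v, if_neg (Finset.ne_of_mem_erase hi)]
      rw [this]
      simp [v]
    let w : Fin n → ℝ := fun i => v i.succ
    have hw : ψ w = v := by
      funext i
      refine Fin.cases ?_ (fun i => ?_) i
      · simp only [ψ, Fin.cons_zero, w]
        rw [Fin.sum_univ_succ] at hv0
        linarith
      · simp [ψ, w]
    have hvA : ∀ i ∈ A, s i * v i = 1 := by
      intro i hi
      have : i ≠ l := fun h => hl (h ▸ hi)
      simp only [v, if_neg this]
      rcases hs i with h | h <;> rw [h] <;> norm_num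
    apply null_of_line ((hcl.preimage hψc).measurableSet) w
    intro y hy r hr
    simp only [mem_preimage] at hy hr
    rw [hψadd, hw] at hr
    by_contra hr0
    rcases lt_or_gt_of_ne hr0 with hlt | hgt
    · apply hT _ hr _ hy
      intro i hi
      have := hvA i hi
      have e : s i * (ψ y i - (ψ y + r • v) i) = -r * (s i * v i) := by
        simp only [Pi.add_apply, Pi.smul_apply, smul_eq_mul]; ring
      rw [e, this]; linarith
    · apply hT _ hy _ hr
      intro i hi
      have := hvA i hi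
      have e : s i * ((ψ y + r • v) i - ψ y i) = r * (s i * v i) := by
        simp only [Pi.add_apply, Pi.smul_apply, smul_eq_mul]; ring
      rw [e, this]; linarith)
  exact ⟨ψ y, hψ0 y, fun B hB => hy ⟨B, hB⟩⟩

end Pool.Agent.Lib_helper71.Ent
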