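import Mathlib
import Pool.Agent.Lib_helper71.EntE
import Pool.Agent.Lib_helper71.EntF

set_option autoImplicit false

open Cardinal Set

namespace Pool.Agent.Lib_helper71.Ent

theorem thin_hyperplane (n : ℕ) :
    Thin (fun _ => (1 : ℝ)) Finset.univ {x : Fin (n + 1) → ℝ | ∑ i, x i = 0} := by
  intro x hx y hy h
  simp only [mem_ofPred_eq] at hx hy
  have : ∑ i, x i < ∑ i, y i := by
    apply Finset.sum_lt_sum_of_nonempty Finset.univ_nonempty
    intro i hi
    have := h i hi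
    linarith
  rw [hx, hy] at this
  exact lt_irrefl _ this

theorem closed_hyperplane (n : ℕ) : IsClosed {x : Fin (n + 1) → ℝ | ∑ i, x i = 0} :=
  isClosed_eq (by fun_prop) continuous_const

/-- If the continuum is a limit cardinal, then `(∗)` holds. -/
theorem star_of_limit (h : Order.IsSuccLimit (𝔠 : Cardinal.{0})) : Star := fun n hn =>
  exists_of_cov hn (fun _ => Or.inl rfl) (thin_hyperplane n)
    (cov_of_limit (fun _ hκ => h.succ_lt hκ) n)

theorem nullSmall_of_covNull (h : covNull = 𝔠) : NullSmall := by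
  intro 𝒩 h𝒩 hN hcov
  have : covNull ≤ #𝒩 := csInf_le' ⟨𝒩, rfl, hN, hcov⟩
  rw [h] at this
  exact absurd h𝒩 (not_lt.2 this)

/-- If `cov(N) = 𝔠`, then `(∗)` holds. -/
theorem star_of_covNull (h : covNull = 𝔠) : Star := fun n hn =>
  exists_of_cov hn (fun _ => Or.inl rfl) (thin_hyperplane n)
    (cov_of_null (nullSmall_of_covNull h) n)

/-- the signs associated with a type -/
noncomputable def sgn {m : ℕ} (t : Fin m → Bool) : Fin m → ℝ := fun i => if t i = true then -1 else 1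

theorem sgn_pm {m : ℕ} (t : Fin m → Bool) (i : Fin m) : sgn t i = 1 ∨ sgn t i = -1 := by
  unfold sgn
  split
  · exact Or.inr rfl
  · exact Or.inl rfl

theorem sgn_iff {m : ℕ} (t : Fin m → Bool) (i : Fin m) (a b : ℝ) :
    0 < sgn t i * (b - a) ↔ (if t i then b < a else a < b) := by
  unfold sgn
  by_cases h : t i = true
  · rw [if_pos h, if_pos h]; constructor <;> intro h <;> linarith
  · rw [if_neg h, if_neg h]; constructor <;> intro h <;> linarith

theorem omits_iff {m : ℕ} (t : Fin m → Bool) (A : Finset (Fin m)) (C : Set (Fin m → ℝ)) :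
    Omits t A C ↔ Thin (sgn t) A C := by
  unfold Omits Thin
  simp only [sgn_iff]

theorem exists_sgn {m : ℕ} {s : Fin m → ℝ} (hs : ∀ i, s i = 1 ∨ s i = -1) : ∃ t, sgn t = s := by
  classical
  refine ⟨fun i => decide (s i = -1), ?_⟩
  funext i
  unfold sgn
  rcases hs i with h | h
  · have : ¬ (s i = -1) := by rw [h]; norm_num
    rw [if_neg (by simpa using this), h]
  · rw [if_pos (by simpa using h), h]

theorem pthin_iff {m : ℕ} (B : Set (Fin m → ℝ)) :
    PThin B ↔ ∃ A : Finset (Fin m), A ≠ Finset.univ ∧ ∃ t, Omits t A B := by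
  constructor
  · rintro ⟨A, hA, s, hs, hT⟩
    obtain ⟨t, rfl⟩ := exists_sgn hs
    exact ⟨A, hA, t, (omits_iff _ _ _).2 hT⟩
  · rintro ⟨A, hA, t, ht⟩
    exact ⟨A, hA, sgn t, sgn_pm t, (omits_iff _ _ _).1 ht⟩

theorem cov_iff {n : ℕ} (S : Set (Fin (n + 1) → ℝ)) :
    Cov S ↔ ∀ 𝓑 : Set (Set (Fin (n + 1) → ℝ)),
      (∀ B ∈ 𝓑, IsClosed B ∧ ∃ A : Finset (Fin (n + 1)), A ≠ Finset.univ ∧ ∃ t, Omits t A B) →
        S ⊆ ⋃₀ 𝓑 → 𝔠 ≤ #𝓑 := by
  unfold Cov
  simp only [pthin_iff]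
  constructor
  · intro h 𝓑 h𝓑 hS
    by_contra hlt
    obtain ⟨x, hx, hx'⟩ := h 𝓑 (not_le.1 hlt) h𝓑
    obtain ⟨B, hB, hxB⟩ := hS hx
    exact hx' B hB hxB
  · intro h 𝓑 hlt h𝓑
    by_contra hcon
    push Not at hcon
    exact absurd (h 𝓑 h𝓑 (fun x hx => by
      obtain ⟨B, hB, hxB⟩ := hcon x hx
      exact ⟨B, hB, hxB⟩)) (not_le.2 hlt)

theorem starAt_forward {n : ℕ} (hn : 1 < n) (h : StarAt n) :
    ∃ (S : Set (Fin (n + 1) → ℝ)) (t : Fin (n + 1) → Bool), IsClosed S ∧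
      Omits t Finset.univ S ∧ Cov S := by
  classical
  by_cases hlim : ∀ κ : Cardinal.{0}, κ < 𝔠 → Order.succ κ < 𝔠
  · obtain ⟨t, ht⟩ := exists_sgn (s := fun _ : Fin (n + 1) => (1 : ℝ)) (fun _ => Or.inl rfl)
    refine ⟨_, t, closed_hyperplane n, ?_, cov_of_limit hlim n⟩
    rw [omits_iff, ht]
    exact thin_hyperplane n
  push Not at hlim
  obtain ⟨κ, hκ, hκ'⟩ := hlim
  have hsucc : 𝔠 = Order.succ κ := le_antisymm hκ' (Order.succ_le_of_lt hκ)
  have hκ0 : ℵ₀ ≤ κ := by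
    by_contra hlt
    have h1 : Order.succ κ ≤ ℵ₀ := Order.succ_le_of_lt (not_le.1 hlt)
    exact absurd (hκ'.trans h1) (not_le.2 aleph0_lt_continuum)
  have hreg : (𝔠 : Cardinal.{0}).IsRegular := by
    rw [hsucc]; exact isRegular_succ hκ0
  obtain ⟨E, hE, hE'⟩ := h
  unfold Entangled at hE'
  push Not at hE'
  obtain ⟨F, hFc, hF, hFd, t, ht⟩ := hE'
  refine ⟨closure F, t, isClosed_closure, ?_, ?_⟩
  · rw [omits_iff]
    apply thin_closure
    intro x hx y hy hxy
    have hne : x ≠ y := by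
      rintro rfl
      have := hxy 0 (Finset.mem_univ _)
      simp at this
    have hd : Disj x y := hFd hx hy hne
    apply ht x hx y hy hd
    funext i
    have h1 := (sgn_iff t i (x i) (y i)).1 (hxy i (Finset.mem_univ _))
    by_cases hti : t i = true
    · rw [if_pos hti] at h1
      rw [hti]
      simp only [typ, decide_eq_true_eq]
      linarith
    · rw [if_neg hti] at h1
      have : t i = false := by simpa using hti
      rw [this]
      simp only [typ, decide_eq_false_iff_not, not_not]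
      exact h1
  · intro 𝓑 hlt h𝓑
    by_contra hcon
    push Not at hcon
    have hsub : F ⊆ ⋃ B : 𝓑, F ∩ B.1 := by
      intro x hx
      obtain ⟨B, hB, hxB⟩ := hcon x (subset_closure hx)
      exact mem_iUnion.2 ⟨⟨B, hB⟩, hx, hxB⟩
    have hex : ∃ B : 𝓑, 𝔠 ≤ #(F ∩ B.1 : Set (Fin (n + 1) → ℝ)) := by
      by_contra hno
      push Not at hno
      have h1 : #(⋃ B : 𝓑, F ∩ B.1 : Set (Fin (n + 1) → ℝ)) < 𝔠 := by
        refine (mk_iUnion_le _).trans_lt ?_
        exact mul_lt_of_lt aleph0_le_continuum hlt (iSup_lt_of_isRegular hreg hlt hno)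
      have h2 := (mk_le_mk_of_subset hsub).trans_lt h1
      rw [hFc] at h2
      exact lt_irrefl _ h2
    obtain ⟨⟨B, hB⟩, hBc⟩ := hex
    obtain ⟨-, A, hA, s, hs, hT⟩ := h𝓑 B hB
    obtain ⟨l, hl⟩ : ∃ l, l ∉ A := by
      by_contra h
      push Not at h
      exact hA (Finset.eq_univ_iff_forall.2 h)
    let k₀ : Fin n := ⟨0, by omega⟩
    let pr : (Fin (n + 1) → ℝ) → (Fin n → ℝ) := fun x i => x (l.succAbove i)
    have hinj : InjOn pr (F ∩ B) := by
      intro x hx y hy hxy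
      by_contra hne
      exact hFd hx.1 hy.1 hne _ _ (congrFun hxy k₀)
    have hcard : #(pr '' (F ∩ B)) = 𝔠 := by
      rw [mk_image_eq_of_injOn _ _ hinj]
      refine le_antisymm ?_ hBc
      rw [← hFc]
      exact mk_le_mk_of_subset inter_subset_left
    obtain ⟨t', ht'⟩ := exists_sgn hs
    obtain ⟨a, ⟨x, hx, rfl⟩, b, ⟨y, hy, rfl⟩, hd, hab⟩ := hE (pr '' (F ∩ B)) hcard
      (by
        rintro _ ⟨x, hx, rfl⟩
        refine ⟨?_, fun i => (hF x hx.1).2 _⟩
        intro i j hij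
        exact Fin.succAbove_right_injective ((hF x hx.1).1 hij))
      (by
        rintro _ ⟨x, hx, rfl⟩ _ ⟨y, hy, rfl⟩ hne i j
        have hxy : x ≠ y := fun h => hne (by rw [h])
        exact hFd hx.1 hy.1 hxy _ _)
      (fun i => t' (l.succAbove i))
    apply hT x hx.2 y hy.2
    intro i hi
    have hil : i ≠ l := fun h => hl (h ▸ hi)
    obtain ⟨k, rfl⟩ := Fin.exists_succAbove_eq hil
    rw [← ht', sgn_iff]
    have h1 := congrFun hab k
    have h2 := hd k k
    simp only [typ, pr] at h1 h2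
    by_cases hti : t' (l.succAbove k) = true
    · rw [hti] at h1
      rw [if_pos hti]
      simp only [decide_eq_true_eq, not_lt] at h1
      exact lt_of_le_of_ne h1 h2.symm
    · have h3 : t' (l.succAbove k) = false := by simpa using hti
      rw [h3] at h1
      rw [if_neg hti]
      simpa using h1

/-- The exact characterization of `(∗)` for a fixed `n > 1`. -/
theorem starAt_iff {n : ℕ} (hn : 1 < n) :
    StarAt n ↔ ∃ (S : Set (Fin (n + 1) → ℝ)) (t : Fin (n + 1) → Bool), IsClosed S ∧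
      Omits t Finset.univ S ∧ ∀ 𝓑 : Set (Set (Fin (n + 1) → ℝ)),
        (∀ B ∈ 𝓑, IsClosed B ∧ ∃ A : Finset (Fin (n + 1)), A ≠ Finset.univ ∧ ∃ t', Omits t' A B) →
          S ⊆ ⋃₀ 𝓑 → 𝔠 ≤ #𝓑 := by
  constructor
  · intro h
    obtain ⟨S, t, h1, h2, h3⟩ := starAt_forward hn h
    exact ⟨S, t, h1, h2, (cov_iff S).1 h3⟩
  · rintro ⟨S, t, -, h2, h3⟩
    exact exists_of_cov hn (sgn_pm t) ((omits_iff _ _ _).1 h2) ((cov_iff S).2 h3)

end Pool.Agent.Lib_helper71.Ent
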